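import Mathlib
import Pool.Agent.Lib_helper1.Poly.Defs
import Pool.Agent.Lib_helper1.Poly.Final

/-!
Positive answer to Q1 of MP_a78553_al.
-/

open Pool.Agent.Poly

namespace Pool.Agent.Results.MP_a78553_al.TwoGeneratedRetract

/-- For every two-generated subgroup `H` of the free polynilpotent group of rank `r` and class
`(1, c 1, …, c l)`: `H` is a retract iff it is algebraically closed iff it is verbally closed. -/
theorem result (r l : ℕ) (c : ℕ → ℕ) (hc : ∀ i, 1 ≤ i → i ≤ l → 1 ≤ c i)
    (H : Subgroup (FreePolynilpotent r c l)) (hH : ∃ a b, H = Subgroup.closure {a, b}) :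
    [IsRetract H, IsAlgebraicallyClosed H, IsVerballyClosed H].TFAE := by
  obtain ⟨h1, h2⟩ := equiv_closed r c l hc H hH
  tfae_have 1 ↔ 2 := h1
  tfae_have 2 ↔ 3 := h2
  tfae_finish

end Pool.Agent.Results.MP_a78553_al.TwoGeneratedRetract
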